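import Pool.Agent.TH931.LP.Stm

/-!
# Basic facts on frames (helper602), for the project LP931
-/

set_option autoImplicit false

open MeasureTheory Set
open scoped ENNReal Matrix Pointwise

noncomputable section

namespace Pool.Agent.TH602.LP931

open Pool.Agent.TH931.LP

variable {n m : ℕ} {U V U' V' : Type}

lemma h_zero {F : Fr n U V} (hF : Good F) : F.h 0 = 0 := by
  have h1 := hF.dhalf.eq 0
  have h2 : F.dual.u (F.dual.ft 0) ⬝ᵥ (0 : Fin n → ℝ) = 0 := dotProduct_zero _
  rw [h2] at h1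
  exact h1.symm

lemma h_pos {F : Fr n U V} (hF : Good F) {y : Fin n → ℝ} (hy : y ≠ 0) : 0 < F.h y :=
  hF.dhalf.pos y hy

lemma h_nonneg {F : Fr n U V} (hF : Good F) (y : Fin n → ℝ) : 0 ≤ F.h y := by
  by_cases hy : y = 0
  · rw [hy, h_zero hF]
  · exact (h_pos hF hy).le

lemma h_le {F : Fr n U V} (hF : Good F) (b : V) (y : Fin n → ℝ) : F.v b ⬝ᵥ y ≤ F.h y :=
  hF.dhalf.le b y

lemma h_eq {F : Fr n U V} (hF : Good F) (y : Fin n → ℝ) : F.v (F.vt y) ⬝ᵥ y = F.h y :=
  hF.dhalf.eq y

lemma h_smul {F : Fr n U V} (hF : Good F) {t : ℝ} (ht : 0 < t) (y : Fin n → ℝ) :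
    F.h (t • y) = t * F.h y := by
  apply le_antisymm
  · rw [← h_eq hF (t • y), dotProduct_smul, smul_eq_mul]
    exact mul_le_mul_of_nonneg_left (h_le hF _ _) ht.le
  · rw [← h_eq hF y]
    have := h_le hF (F.vt y) (t • y)
    rwa [dotProduct_smul, smul_eq_mul] at this

lemma h_cont [Fintype V] {F : Fr n U V} (hF : Good F) : Continuous F.h := by
  have hne : (Finset.univ : Finset V).Nonempty := ⟨F.vt 0, Finset.mem_univ _⟩
  have h1 : F.h = fun y => Finset.univ.sup' hne fun b => F.v b ⬝ᵥ y := by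
    funext y
    apply le_antisymm
    · rw [← h_eq hF y]
      exact Finset.le_sup' (fun b => F.v b ⬝ᵥ y) (Finset.mem_univ _)
    · exact Finset.sup'_le _ _ fun b _ => h_le hF b y
  rw [h1]
  apply Continuous.finset_sup'_apply
  intro b _
  exact continuous_const.dotProduct continuous_id

lemma h_meas [Fintype V] {F : Fr n U V} (hF : Good F) : Measurable F.h := (h_cont hF).measurable

lemma meas_pol [Fintype V] {F : Fr n U V} (hF : Good F) : MeasurableSet F.pol :=
  measurableSet_le (h_meas hF) measurable_const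

lemma vol_real_pos {F : Fr n U V} (hF : Good F) : 0 < volume.real F.pol := by
  have h1 := hF.vol
  have h2 : (0 : ℝ) < 4 ^ n / n.factorial := by positivity
  rw [← h1] at h2
  rcases (mul_pos_iff.1 h2) with h3 | h3
  · exact h3.2
  · exact absurd h3.1 (not_lt.2 measureReal_nonneg)

lemma pol_ne_top {F : Fr n U V} (hF : Good F) : volume F.pol ≠ ∞ := by
  intro h1
  have h2 := vol_real_pos hF
  rw [measureReal_def, h1] at h2
  simp at h2

lemma pol_ne_zero {F : Fr n U V} (hF : Good F) : volume F.pol ≠ 0 := by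
  intro h1
  have h2 := vol_real_pos hF
  rw [measureReal_def, h1] at h2
  simp at h2

/-! ### the two blocks -/

lemma cont_p1 {a b : ℕ} : Continuous (p1 : (Fin (a + b) → ℝ) → Fin a → ℝ) :=
  continuous_pi fun _ => continuous_apply _

lemma cont_p2 {a b : ℕ} : Continuous (p2 : (Fin (a + b) → ℝ) → Fin b → ℝ) :=
  continuous_pi fun _ => continuous_apply _

lemma p1_append {a b : ℕ} (x : Fin a → ℝ) (y : Fin b → ℝ) : p1 (Fin.append x y) = x := by
  funext i
  simp [p1]

lemma p2_append {a b : ℕ} (x : Fin a → ℝ) (y : Fin b → ℝ) : p2 (Fin.append x y) = y := by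
  funext i
  simp [p2]

lemma p1_smul {a b : ℕ} (t : ℝ) (x : Fin (a + b) → ℝ) : p1 (t • x) = t • p1 x := rfl

lemma p2_smul {a b : ℕ} (t : ℝ) (x : Fin (a + b) → ℝ) : p2 (t • x) = t • p2 x := rfl

lemma dot_split {a b : ℕ} (x y : Fin (a + b) → ℝ) :
    x ⬝ᵥ y = p1 x ⬝ᵥ p1 y + p2 x ⬝ᵥ p2 y := by
  simp only [dotProduct, p1, p2]
  rw [Fin.sum_univ_add]

lemma append_dot {a b : ℕ} (x : Fin a → ℝ) (y : Fin b → ℝ) (z : Fin (a + b) → ℝ) :
    Fin.append x y ⬝ᵥ z = x ⬝ᵥ p1 z + y ⬝ᵥ p2 z := by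
  rw [dot_split, p1_append, p2_append]

lemma lint_split (h1 : S_app) {a b : ℕ} {f : (Fin a → ℝ) → ℝ≥0∞} {g : (Fin b → ℝ) → ℝ≥0∞}
    (hf : Measurable f) (hg : Measurable g) :
    ∫⁻ x : Fin (a + b) → ℝ, f (p1 x) * g (p2 x) = (∫⁻ x, f x) * ∫⁻ x, g x := by
  rw [h1 a b (fun x => f (p1 x) * g (p2 x))
    ((hf.comp cont_p1.measurable).mul (hg.comp cont_p2.measurable))]
  simp only [p1_append, p2_append]
  rw [← lintegral_mul_const _ hf]
  refine lintegral_congr fun x => ?_
  rw [lintegral_const_mul _ hg]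

lemma null_p1 (h1 : S_app) {a b : ℕ} {A : Set (Fin a → ℝ)} (hA : volume A = 0) :
    volume {x : Fin (a + b) → ℝ | p1 x ∈ A} = 0 := by
  have h2 : volume (toMeasurable volume A) = 0 := by rw [measure_toMeasurable, hA]
  have hm := measurableSet_toMeasurable (volume : Measure (Fin a → ℝ)) A
  refine measure_mono_null (t := {x : Fin (a + b) → ℝ | p1 x ∈ toMeasurable volume A})
    (fun x hx => subset_toMeasurable _ _ hx) ?_
  have hm2 : MeasurableSet {x : Fin (a + b) → ℝ | p1 x ∈ toMeasurable volume A} :=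
    cont_p1.measurable hm
  rw [← lintegral_indicator_one hm2]
  have h3 := lint_split h1 (a := a) (b := b) (f := (toMeasurable volume A).indicator 1)
    (g := fun _ => 1) (measurable_one.indicator hm) measurable_const
  rw [lintegral_indicator_one hm, h2, zero_mul] at h3
  rw [← h3]
  refine lintegral_congr fun x => ?_
  rw [mul_one]
  rfl

lemma null_p2 (h1 : S_app) {a b : ℕ} {A : Set (Fin b → ℝ)} (hA : volume A = 0) :
    volume {x : Fin (a + b) → ℝ | p2 x ∈ A} = 0 := by
  have h2 : volume (toMeasurable volume A) = 0 := by rw [measure_toMeasurable, hA]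
  have hm := measurableSet_toMeasurable (volume : Measure (Fin b → ℝ)) A
  refine measure_mono_null (t := {x : Fin (a + b) → ℝ | p2 x ∈ toMeasurable volume A})
    (fun x hx => subset_toMeasurable _ _ hx) ?_
  have hm2 : MeasurableSet {x : Fin (a + b) → ℝ | p2 x ∈ toMeasurable volume A} :=
    cont_p2.measurable hm
  rw [← lintegral_indicator_one hm2]
  have h3 := lint_split h1 (a := a) (b := b) (f := fun _ => 1)
    (g := (toMeasurable volume A).indicator 1) measurable_const (measurable_one.indicator hm)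
  rw [lintegral_indicator_one hm, h2, mul_zero] at h3
  rw [← h3]
  refine lintegral_congr fun x => ?_
  rw [one_mul]
  rfl

/-- scaling of sublevel sets -/
lemma vol_sub {F : Fr n U V} (hF : Good F) (s : ℝ) :
    volume {y | F.h y ≤ s} = (if s ≤ 0 then 0 else ENNReal.ofReal (s ^ n)) * volume F.pol := by
  have hn := hF.n_pos
  have : Nonempty (Fin n) := ⟨⟨0, hn⟩⟩
  split_ifs with h
  · rw [zero_mul]
    refine measure_mono_null (t := {0}) (fun y hy => ?_) (by simp)
    by_contra h1
    have h2 := h_pos hF (show y ≠ 0 from h1)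
    have h3 : F.h y ≤ s := hy
    linarith
  · push Not at h
    have h1 : {y | F.h y ≤ s} = s • F.pol := by
      ext y
      rw [mem_smul_set_iff_inv_smul_mem₀ h.ne']
      show F.h y ≤ s ↔ F.h (s⁻¹ • y) ≤ 1
      rw [h_smul hF (inv_pos.2 h), inv_mul_le_iff₀ h, mul_one]
    rw [h1, Measure.addHaar_smul]
    congr 2
    rw [abs_of_pos (pow_pos h _), Module.finrank_fin_fun]

end Pool.Agent.TH602.LP931
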