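import Pool.Agent.TH602.LP931.Basic

/-!
# The certificate of a product for the cones (helper602), job LP931-C1
-/

set_option autoImplicit false
set_option linter.unusedVariables false

open MeasureTheory Set
open scoped ENNReal Matrix Pointwise

noncomputable section

namespace Pool.Agent.TH602.LP931

open Pool.Agent.TH931.LP

variable {n m : ℕ} {U V U' V' : Type}

/-- the homogeneous part -/
def ff (F : Fr n U V) (LQ : (Fin n → ℝ) → ℝ) (Y : Set (Fin n → ℝ)) (y : Fin n → ℝ) : ℝ≥0∞ :=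
  Y.indicator (fun y => ENNReal.ofReal (LQ y + n * Real.log (F.h y))) y

lemma ff_meas [Fintype U] [Fintype V] {F : Fr n U V} {mu : (Fin n → ℝ) → U → ℝ}
    {LQ : (Fin n → ℝ) → ℝ} {Y : Set (Fin n → ℝ)} {qa : ℝ} (hF : Good F) (hq : QC F mu LQ Y qa) :
    Measurable (ff F LQ Y) := by
  refine Measurable.indicator ?_ hq.measY
  exact (hq.meas.add ((Real.measurable_log.comp (h_meas hF)).const_mul _)).ennreal_ofReal

lemma ff_smul [Fintype U] [Fintype V] {F : Fr n U V} {mu : (Fin n → ℝ) → U → ℝ}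
    {LQ : (Fin n → ℝ) → ℝ} {Y : Set (Fin n → ℝ)} {qa : ℝ} (hF : Good F) (hq : QC F mu LQ Y qa)
    (t : ℝ) (ht : 0 < t) (y : Fin n → ℝ) : ff F LQ Y (t • y) = ff F LQ Y y := by
  by_cases h0 : y = 0
  · rw [h0, smul_zero]
  unfold ff
  by_cases hy : y ∈ Y
  · rw [indicator_of_mem hy, indicator_of_mem (hq.smulY t ht y hy), hq.smul t ht y hy,
      h_smul hF ht, Real.log_mul ht.ne' (h_pos hF h0).ne']
    congr 1
    ring
  · have h1 : t • y ∉ Y := by
      intro h2
      have h3 := hq.smulY t⁻¹ (inv_pos.2 ht) _ h2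
      rw [smul_smul, inv_mul_cancel₀ ht.ne', one_smul] at h3
      exact hy h3
    rw [indicator_of_notMem hy, indicator_of_notMem h1]

lemma LQ_nonneg [Fintype U] [Fintype V] {F : Fr n U V} {mu : (Fin n → ℝ) → U → ℝ}
    {LQ : (Fin n → ℝ) → ℝ} {Y : Set (Fin n → ℝ)} {qa : ℝ} (hF : Good F) (hq : QC F mu LQ Y qa)
    {y : Fin n → ℝ} (h0 : y ≠ 0) (hy : y ∈ Y) : 0 ≤ LQ y + n * Real.log (F.h y) := by
  have h1 := h_pos hF h0
  have h2 := hq.nonneg _ (hq.smulY (F.h y)⁻¹ (inv_pos.2 h1) y hy)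
    (by rw [h_smul hF (inv_pos.2 h1), inv_mul_cancel₀ h1.ne'])
  rw [hq.smul _ (inv_pos.2 h1) y hy, Real.log_inv] at h2
  linarith

/-- the radial integrals -/
lemma rad_one (h2 : S_rad) {F : Fr n U V} [Fintype V] (hF : Good F)
    {f : (Fin n → ℝ) → ℝ≥0∞} (hf : Measurable f)
    (hs : ∀ t : ℝ, 0 < t → ∀ y, f (t • y) = f y) {w : ℝ → ℝ} (hw : Measurable w)
    (hw0 : ∀ r, 0 < r → r ≤ 1 → 0 ≤ w r) :
    ∫⁻ y in F.pol, ENNReal.ofReal (w (F.h y)) * f y =
      (∫⁻ r in Ioc (0 : ℝ) 1, ENNReal.ofReal (n * r ^ (n - 1) * w r)) * ∫⁻ y in F.pol, f y := by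
  have h3 := h2 n F.h hF.n_pos (h_meas hF) (h_nonneg hF) (fun t ht y => h_smul hF ht y)
    (pol_ne_top hF) f hf hs ((Iic (1 : ℝ)).indicator fun r => ENNReal.ofReal (w r))
    (hw.ennreal_ofReal.indicator measurableSet_Iic)
  have h4 : ∫⁻ y, (Iic (1 : ℝ)).indicator (fun r => ENNReal.ofReal (w r)) (F.h y) * f y =
      ∫⁻ y in F.pol, ENNReal.ofReal (w (F.h y)) * f y := by
    rw [← lintegral_indicator (meas_pol hF)]
    refine lintegral_congr fun y => ?_
    by_cases hy : F.h y ≤ 1
    · rw [indicator_of_mem (show F.h y ∈ Iic (1 : ℝ) from hy),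
        indicator_of_mem (show y ∈ F.pol from hy)]
    · rw [indicator_of_notMem (show F.h y ∉ Iic (1 : ℝ) from hy),
        indicator_of_notMem (show y ∉ F.pol from hy), zero_mul]
  rw [h4] at h3
  rw [h3]
  congr 1
  have h5 : ∀ r : ℝ, ENNReal.ofReal (n * r ^ (n - 1)) *
      (Iic (1 : ℝ)).indicator (fun r => ENNReal.ofReal (w r)) r =
      (Iic (1 : ℝ)).indicator (fun r => ENNReal.ofReal (n * r ^ (n - 1)) * ENNReal.ofReal (w r)) r := by
    intro r
    by_cases hr : r ∈ Iic (1 : ℝ)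
    · rw [indicator_of_mem hr, indicator_of_mem hr]
    · rw [indicator_of_notMem hr, indicator_of_notMem hr, mul_zero]
  simp only [h5]
  rw [setLIntegral_indicator measurableSet_Iic, Iic_inter_Ioi]
  refine setLIntegral_congr_fun measurableSet_Ioc fun r hr => ?_
  show ENNReal.ofReal (n * r ^ (n - 1)) * ENNReal.ofReal (w r) = _
  rw [← ENNReal.ofReal_mul (by have := hr.1.le; positivity)]

lemma rad_LQ (h2 : S_rad) (h3 : S_beta) [Fintype U] [Fintype V] {F : Fr n U V}
    {mu : (Fin n → ℝ) → U → ℝ} {LQ : (Fin n → ℝ) → ℝ} {Y : Set (Fin n → ℝ)} {qa : ℝ}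
    (hF : Good F) (hq : QC F mu LQ Y qa) (j : ℕ) :
    ∫⁻ y in F.pol, ENNReal.ofReal (LQ y) * ENNReal.ofReal ((1 - F.h y) ^ j) =
      ENNReal.ofReal (n.factorial * j.factorial / (n + j).factorial) *
        (∫⁻ y in F.pol, ff F LQ Y y) +
      ENNReal.ofReal (n * (n.factorial * j.factorial / (n + j).factorial *
        (HH (n + j) - HH (n - 1)))) * volume F.pol := by
  have hn := hF.n_pos
  haveI : Nonempty (Fin n) := ⟨⟨0, hn⟩⟩
  obtain ⟨b1, b2, -⟩ := h3 n j hn
  have r1 := rad_one h2 hF (ff_meas hF hq) (ff_smul hF hq) (w := fun r => (1 - r) ^ j)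
    (by fun_prop) (fun r _ hr => by have : 0 ≤ 1 - r := by linarith
                                    positivity)
  have r2 := rad_one h2 hF (f := fun _ => 1) measurable_const (fun _ _ _ => rfl)
    (w := fun r => n * ((1 - r) ^ j * -Real.log r)) (by fun_prop)
    (fun r h0 hr => by
      have h4 : 0 ≤ 1 - r := by linarith
      have h5 : 0 ≤ -Real.log r := by
        have := Real.log_nonpos h0.le hr
        linarith
      positivity)
  rw [b1] at r1
  have h6 : ∫⁻ r in Ioc (0 : ℝ) 1, ENNReal.ofReal (n * r ^ (n - 1) * (n * ((1 - r) ^ j *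
      -Real.log r))) = ENNReal.ofReal (n * (n.factorial * j.factorial / (n + j).factorial *
        (HH (n + j) - HH (n - 1)))) := by
    rw [ENNReal.ofReal_mul (by positivity), ← b2, ← lintegral_const_mul _ (by fun_prop)]
    refine setLIntegral_congr_fun measurableSet_Ioc fun r hr => ?_
    show _ = ENNReal.ofReal n * ENNReal.ofReal _
    rw [← ENNReal.ofReal_mul (by positivity)]
    congr 1
    ring
  rw [h6, setLIntegral_one] at r2
  have m1 : Measurable fun y => ENNReal.ofReal ((1 - F.h y) ^ j) * ff F LQ Y y :=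
    ((measurable_const.sub (h_meas hF)).pow_const j).ennreal_ofReal.mul (ff_meas hF hq)
  rw [← r1, ← r2, ← lintegral_add_left m1]
  refine setLIntegral_congr_fun_ae (meas_pol hF) ?_
  have hz : ∀ᵐ y : Fin n → ℝ, y ≠ 0 := by
    have : volume ({0} : Set (Fin n → ℝ)) = 0 := by simp
    exact compl_mem_ae_iff.2 this
  have hY : ∀ᵐ y : Fin n → ℝ, y ∈ Y := hq.nullY
  filter_upwards [hz, hY] with y hy0 hy hp
  have hh := h_pos hF hy0
  have hle : F.h y ≤ 1 := hp
  have h7 := LQ_nonneg hF hq hy0 hy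
  have h8 : 0 ≤ (1 - F.h y) ^ j := by
    have : 0 ≤ 1 - F.h y := by linarith
    positivity
  have h9 : 0 ≤ -Real.log (F.h y) := by
    have := Real.log_nonpos hh.le hle
    linarith
  show _ = ENNReal.ofReal ((1 - F.h y) ^ j) * Y.indicator _ y + _ * 1
  rw [indicator_of_mem hy, mul_one, ← ENNReal.ofReal_mul h8, ← ENNReal.ofReal_add (by positivity)
    (by positivity), mul_comm, ← ENNReal.ofReal_mul h8]
  congr 1
  ring

lemma HH_succ (k : ℕ) : HH (k + 1) = HH k + 1 / ((k : ℝ) + 1) := by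
  rw [HH, Finset.sum_range_succ, ← HH]

lemma HH_mono {a b : ℕ} (h : a ≤ b) : HH a ≤ HH b :=
  Finset.sum_le_sum_of_subset_of_nonneg (Finset.range_mono h) fun i _ _ => by positivity

lemma HH_pred (hn : 0 < n) : (n : ℝ) * (HH n - HH (n - 1)) = 1 := by
  obtain ⟨k, rfl⟩ : ∃ k, n = k + 1 := ⟨n - 1, by omega⟩
  rw [Nat.add_sub_cancel, HH_succ]
  push_cast
  field_simp
  ring

lemma one_le_HH (hn : 0 < n) (j : ℕ) : (1 : ℝ) ≤ n * (HH (n + j) - HH (n - 1)) := by
  rw [← HH_pred hn]
  have := HH_mono (show n ≤ n + j by omega)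
  gcongr

lemma mean_ff (h2 : S_rad) (h3 : S_beta) [Fintype U] [Fintype V] {F : Fr n U V}
    {mu : (Fin n → ℝ) → U → ℝ} {LQ : (Fin n → ℝ) → ℝ} {Y : Set (Fin n → ℝ)} {qa : ℝ}
    (hF : Good F) (hq : QC F mu LQ Y qa) :
    1 ≤ qa ∧ ∫⁻ y in F.pol, ff F LQ Y y ≤ ENNReal.ofReal (qa - 1) * volume F.pol := by
  have hn := hF.n_pos
  have h4 := rad_LQ h2 h3 hF hq 0
  simp only [pow_zero, ENNReal.ofReal_one, mul_one, Nat.factorial_zero, Nat.cast_one,
    Nat.add_zero] at h4
  have h5 : ((n.factorial : ℝ) / n.factorial) = 1 := div_self (by positivity)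
  rw [h5, one_mul, HH_pred hn, ENNReal.ofReal_one, one_mul, one_mul] at h4
  have h6 := hq.mean
  rw [h4] at h6
  have h7 := pol_ne_top hF
  have h8 := pol_ne_zero hF
  have h9 : 1 ≤ qa := by
    have h10 : 1 * volume F.pol ≤ ENNReal.ofReal qa * volume F.pol := by
      rw [one_mul]
      exact le_trans le_add_self h6
    rw [ENNReal.mul_le_mul_iff_left h8 h7] at h10
    rwa [← ENNReal.ofReal_one, ENNReal.ofReal_le_ofReal_iff hq.qa_nonneg] at h10
  refine ⟨h9, ?_⟩
  have h11 : ENNReal.ofReal qa = ENNReal.ofReal (qa - 1) + 1 := by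
    rw [← ENNReal.ofReal_one, ← ENNReal.ofReal_add (by linarith) zero_le_one]
    congr 1
    ring
  rw [h11, add_mul, one_mul] at h6
  exact (ENNReal.add_le_add_iff_right h7).1 h6

lemma key (h2 : S_rad) (h3 : S_beta) [Fintype U] [Fintype V] [Fintype U'] [Fintype V']
    {F : Fr n U V} {G : Fr m U' V'} {mu : (Fin n → ℝ) → U → ℝ} {LQ : (Fin n → ℝ) → ℝ}
    {Y : Set (Fin n → ℝ)} {qa : ℝ} (hF : Good F) (hG : Good G) (hq : QC F mu LQ Y qa) :
    ∫⁻ y, ENNReal.ofReal (LQ y) * volume {z | F.h y + G.h z ≤ 1} ≤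
      ENNReal.ofReal (qa - 1 + n * (HH (n + m) - HH (n - 1))) *
        (ENNReal.ofReal (n.factorial * m.factorial / (n + m).factorial) *
          (volume F.pol * volume G.pol)) := by
  have hn := hF.n_pos
  have hm := hG.n_pos
  obtain ⟨hqa, h4⟩ := mean_ff h2 h3 hF hq
  have h5 : ∫⁻ y, ENNReal.ofReal (LQ y) * volume {z | F.h y + G.h z ≤ 1} =
      (∫⁻ y in F.pol, ENNReal.ofReal (LQ y) * ENNReal.ofReal ((1 - F.h y) ^ m)) *
        volume G.pol := by
    have m1 : Measurable fun y => ENNReal.ofReal (LQ y) * ENNReal.ofReal ((1 - F.h y) ^ m) :=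
      hq.meas.ennreal_ofReal.mul ((measurable_const.sub (h_meas hF)).pow_const m).ennreal_ofReal
    rw [← lintegral_mul_const _ m1, ← lintegral_indicator (meas_pol hF)]
    refine lintegral_congr fun y => ?_
    have h6 : {z | F.h y + G.h z ≤ 1} = {z | G.h z ≤ 1 - F.h y} := by
      ext z
      simp only [mem_setOf_eq]
      constructor <;> intro h <;> linarith
    rw [h6, vol_sub hG]
    by_cases hy : F.h y ≤ 1
    · rw [indicator_of_mem (show y ∈ F.pol from hy)]
      split_ifs with h7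
      · have h8 : F.h y = 1 := by linarith
        rw [h8, sub_self, zero_pow hm.ne']
        simp
      · rw [mul_assoc]
    · rw [indicator_of_notMem (show y ∉ F.pol from hy), if_pos (by linarith), zero_mul, mul_zero]
  rw [h5, rad_LQ h2 h3 hF hq m]
  have h9 := one_le_HH hn m
  set B : ℝ := n.factorial * m.factorial / (n + m).factorial with hB
  have hB0 : 0 ≤ B := by positivity
  set T : ℝ := HH (n + m) - HH (n - 1) with hT
  calc (ENNReal.ofReal B * (∫⁻ y in F.pol, ff F LQ Y y) + ENNReal.ofReal (n * (B * T)) *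
        volume F.pol) * volume G.pol
      ≤ (ENNReal.ofReal B * (ENNReal.ofReal (qa - 1) * volume F.pol) +
        ENNReal.ofReal (n * (B * T)) * volume F.pol) * volume G.pol := by gcongr
    _ = ENNReal.ofReal (qa - 1 + n * T) * (ENNReal.ofReal B * (volume F.pol * volume G.pol)) := by
        rw [ENNReal.ofReal_add (by linarith) (by linarith), show (n : ℝ) * (B * T) = n * T * B by ring,
          ENNReal.ofReal_mul (by linarith)]
        ring

theorem qprod (h1 : S_app) (h2 : S_rad) (h3 : S_beta) (h4 : S_gprod) : S_qprod := by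
  intro n m U V U' V' _ _ _ _ F G α α' mu mu' LQ LQ' Y Y' qa qa' hF hG hk hk' hq hq'
  have hn := hF.n_pos
  have hm := hG.n_pos
  obtain ⟨hFG, -, hvol⟩ := h4 n m U V U' V' F G hF hG
  refine ⟨{y | p1 y ∈ Y ∧ p2 y ∈ Y'}, ?_⟩
  refine
    { measY := ?_, nullY := ?_, smulY := ?_, meas := ?_, smul := ?_, nonneg := ?_, cert := ?_,
      qa_nonneg := ?_, mean := ?_ }
  · exact (cont_p1.measurable hq.measY).inter (cont_p2.measurable hq'.measY)
  · refine measure_mono_null (t := {x : Fin (n + m) → ℝ | p1 x ∈ Yᶜ} ∪ {x | p2 x ∈ Y'ᶜ}) ?_ ?_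
    · intro x hx
      by_cases h : p1 x ∈ Y
      · exact Or.inr fun h' => hx ⟨h, h'⟩
      · exact Or.inl h
    · exact measure_union_null (null_p1 h1 hq.nullY) (null_p2 h1 hq'.nullY)
  · rintro t ht y ⟨hy, hy'⟩
    exact ⟨hq.smulY t ht _ hy, hq'.smulY t ht _ hy'⟩
  · exact (hq.meas.comp cont_p1.measurable).add (hq'.meas.comp cont_p2.measurable)
  · rintro t ht y ⟨hy, hy'⟩
    show LQ (t • p1 y) + LQ' (t • p2 y) = LQ (p1 y) + LQ' (p2 y) - _
    rw [hq.smul t ht _ hy, hq'.smul t ht _ hy']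
    push_cast
    ring
  · rintro y ⟨hy, hy'⟩ hle
    have hle' : F.h (p1 y) + G.h (p2 y) ≤ 1 := hle
    have h5 := h_nonneg hF (p1 y)
    have h6 := h_nonneg hG (p2 y)
    exact add_nonneg (hq.nonneg _ hy (by linarith)) (hq'.nonneg _ hy' (by linarith))
  · rintro y ⟨hy, hy'⟩ ψ
    have c1 := hq.cert (p1 y) hy fun a => ψ (Sum.inl a)
    have c2 := hq'.cert (p2 y) hy' fun a => ψ (Sum.inr a)
    set S1 : Set (Fin n → ℝ) := {x | ∀ a, F.u a ⬝ᵥ F.v (F.vt (p1 y)) = 1 →
      F.u a ⬝ᵥ x ≤ ψ (Sum.inl a)} with hS1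
    set S2 : Set (Fin m → ℝ) := {x | ∀ a, G.u a ⬝ᵥ G.v (G.vt (p2 y)) = 1 →
      G.u a ⬝ᵥ x ≤ ψ (Sum.inr a)} with hS2
    have mS1 : MeasurableSet S1 := by
      have : S1 = ⋂ a, {x | F.u a ⬝ᵥ F.v (F.vt (p1 y)) = 1 → F.u a ⬝ᵥ x ≤ ψ (Sum.inl a)} := by
        ext x; simp [hS1]
      rw [this]
      refine MeasurableSet.iInter fun a => ?_
      by_cases h : F.u a ⬝ᵥ F.v (F.vt (p1 y)) = 1
      · simp only [h, forall_true_left]
        exact measurableSet_le (continuous_const.dotProduct continuous_id).measurable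
          measurable_const
      · simp [h]
    have mS2 : MeasurableSet S2 := by
      have : S2 = ⋂ a, {x | G.u a ⬝ᵥ G.v (G.vt (p2 y)) = 1 → G.u a ⬝ᵥ x ≤ ψ (Sum.inr a)} := by
        ext x; simp [hS2]
      rw [this]
      refine MeasurableSet.iInter fun a => ?_
      by_cases h : G.u a ⬝ᵥ G.v (G.vt (p2 y)) = 1
      · simp only [h, forall_true_left]
        exact measurableSet_le (continuous_const.dotProduct continuous_id).measurable
          measurable_const
      · simp [h]
    have hset : {x : Fin (n + m) → ℝ | ∀ a, (F.prod G).u a ⬝ᵥ (F.prod G).v ((F.prod G).vt y) = 1 →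
        (F.prod G).u a ⬝ᵥ x ≤ ψ a} = {x | p1 x ∈ S1 ∧ p2 x ∈ S2} := by
      ext x
      constructor
      · intro hx
        refine ⟨fun a ha => ?_, fun a ha => ?_⟩
        · have h5 := hx (Sum.inl a) (by
            show Fin.append (F.u a) 0 ⬝ᵥ Fin.append (F.v (F.vt (p1 y))) (G.v (G.vt (p2 y))) = 1
            rw [append_dot, p1_append, zero_dotProduct, add_zero, ha])
          have h6 : Fin.append (F.u a) 0 ⬝ᵥ x ≤ ψ (Sum.inl a) := h5
          rwa [append_dot, zero_dotProduct, add_zero] at h6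
        · have h5 := hx (Sum.inr a) (by
            show Fin.append 0 (G.u a) ⬝ᵥ Fin.append (F.v (F.vt (p1 y))) (G.v (G.vt (p2 y))) = 1
            rw [append_dot, p2_append, zero_dotProduct, zero_add, ha])
          have h6 : Fin.append 0 (G.u a) ⬝ᵥ x ≤ ψ (Sum.inr a) := h5
          rwa [append_dot, zero_dotProduct, zero_add] at h6
      · rintro ⟨hx1, hx2⟩ a ha
        rcases a with a | a
        · have h5 : Fin.append (F.u a) 0 ⬝ᵥ
            Fin.append (F.v (F.vt (p1 y))) (G.v (G.vt (p2 y))) = 1 := ha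
          rw [append_dot, p1_append, zero_dotProduct, add_zero] at h5
          show Fin.append (F.u a) 0 ⬝ᵥ x ≤ ψ (Sum.inl a)
          rw [append_dot, zero_dotProduct, add_zero]
          exact hx1 a h5
        · have h5 : Fin.append 0 (G.u a) ⬝ᵥ
            Fin.append (F.v (F.vt (p1 y))) (G.v (G.vt (p2 y))) = 1 := ha
          rw [append_dot, p2_append, zero_dotProduct, zero_add] at h5
          show Fin.append 0 (G.u a) ⬝ᵥ x ≤ ψ (Sum.inr a)
          rw [append_dot, zero_dotProduct, zero_add]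
          exact hx2 a h5
    rw [hset]
    have mE1 : Measurable (S1.indicator fun x => ENNReal.ofReal (Real.exp (x ⬝ᵥ p1 y))) :=
      ((continuous_id.dotProduct continuous_const).rexp.measurable.ennreal_ofReal).indicator mS1
    have mE2 : Measurable (S2.indicator fun x => ENNReal.ofReal (Real.exp (x ⬝ᵥ p2 y))) :=
      ((continuous_id.dotProduct continuous_const).rexp.measurable.ennreal_ofReal).indicator mS2
    have h7 : ∫⁻ x in {x : Fin (n + m) → ℝ | p1 x ∈ S1 ∧ p2 x ∈ S2},
        ENNReal.ofReal (Real.exp (x ⬝ᵥ y)) =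
        (∫⁻ x in S1, ENNReal.ofReal (Real.exp (x ⬝ᵥ p1 y))) *
          ∫⁻ x in S2, ENNReal.ofReal (Real.exp (x ⬝ᵥ p2 y)) := by
      have m12 : MeasurableSet {x : Fin (n + m) → ℝ | p1 x ∈ S1 ∧ p2 x ∈ S2} :=
        (cont_p1.measurable mS1).inter (cont_p2.measurable mS2)
      rw [← lintegral_indicator mS1, ← lintegral_indicator mS2, ← lint_split h1 mE1 mE2,
        ← lintegral_indicator m12]
      refine lintegral_congr fun x => ?_
      by_cases h8 : p1 x ∈ S1
      · by_cases h9 : p2 x ∈ S2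
        · rw [indicator_of_mem h8, indicator_of_mem h9, indicator_of_mem (show x ∈
            {x : Fin (n + m) → ℝ | p1 x ∈ S1 ∧ p2 x ∈ S2} from ⟨h8, h9⟩), dot_split, Real.exp_add,
            ENNReal.ofReal_mul (Real.exp_pos _).le]
        · rw [indicator_of_notMem h9, mul_zero, indicator_of_notMem (fun h => h9 h.2)]
      · rw [indicator_of_notMem h8, zero_mul, indicator_of_notMem (fun h => h8 h.1)]
    rw [h7]
    refine (mul_le_mul' c1 c2).trans ?_
    rw [← ENNReal.ofReal_mul (Real.exp_pos _).le, ← Real.exp_add]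
    apply ENNReal.ofReal_le_ofReal
    apply Real.exp_le_exp.2
    rw [Fintype.sum_sum_type]
    apply le_of_eq
    simp only [muP, LQP, Sum.elim_inl, Sum.elim_inr]
    ring
  · have h5 := one_le_HH hn m
    have h6 := one_le_HH hm n
    rw [Nat.add_comm m n] at h6
    have h7 := (mean_ff h2 h3 hF hq).1
    have h8 := (mean_ff h2 h3 hG hq').1
    linarith
  · have h5 := one_le_HH hn m
    have h6 := one_le_HH hm n
    rw [Nat.add_comm m n] at h6
    have h7 := (mean_ff h2 h3 hF hq).1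
    have h8 := (mean_ff h2 h3 hG hq').1
    have k1 := key h2 h3 hF hG hq
    have k2 := key h2 h3 hG hF hq'
    have mpol : MeasurableSet (F.prod G).pol := meas_pol hFG
    have mLQ := hq.meas.ennreal_ofReal
    have mLQ' := hq'.meas.ennreal_ofReal
    have mL1 : Measurable fun y : Fin (n + m) → ℝ => ENNReal.ofReal (LQ (p1 y)) :=
      mLQ.comp cont_p1.measurable
    have mL2 : Measurable fun y : Fin (n + m) → ℝ => ENNReal.ofReal (LQ' (p2 y)) :=
      mLQ'.comp cont_p2.measurable
    have e0 : ∀ x1 x2, Fin.append x1 x2 ∈ (F.prod G).pol ↔ F.h x1 + G.h x2 ≤ 1 := by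
      intro x1 x2
      show F.h (p1 (Fin.append x1 x2)) + G.h (p2 (Fin.append x1 x2)) ≤ 1 ↔ _
      rw [p1_append, p2_append]
    have mset : MeasurableSet {x : (Fin n → ℝ) × (Fin m → ℝ) | F.h x.1 + G.h x.2 ≤ 1} :=
      measurableSet_le (((h_meas hF).comp measurable_fst).add ((h_meas hG).comp measurable_snd))
        measurable_const
    have e1 : ∫⁻ y in (F.prod G).pol, ENNReal.ofReal (LQ (p1 y)) =
        ∫⁻ y, ENNReal.ofReal (LQ y) * volume {z | F.h y + G.h z ≤ 1} := by
      rw [← lintegral_indicator mpol, h1 n m _ (mL1.indicator mpol)]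
      refine lintegral_congr fun x1 => ?_
      have ms : MeasurableSet {z | F.h x1 + G.h z ≤ 1} :=
        measurableSet_le (measurable_const.add (h_meas hG)) measurable_const
      rw [← lintegral_indicator_one ms, ← lintegral_const_mul _ (measurable_one.indicator ms)]
      refine lintegral_congr fun x2 => ?_
      by_cases h9 : F.h x1 + G.h x2 ≤ 1
      · rw [indicator_of_mem ((e0 _ _).2 h9), p1_append,
          indicator_of_mem (show x2 ∈ {z | F.h x1 + G.h z ≤ 1} from h9), Pi.one_apply, mul_one]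
      · rw [indicator_of_notMem (fun h => h9 ((e0 _ _).1 h)),
          indicator_of_notMem (show x2 ∉ {z | F.h x1 + G.h z ≤ 1} from h9), mul_zero]
    have e2 : ∫⁻ y in (F.prod G).pol, ENNReal.ofReal (LQ' (p2 y)) =
        ∫⁻ y, ENNReal.ofReal (LQ' y) * volume {z | G.h y + F.h z ≤ 1} := by
      rw [← lintegral_indicator mpol, h1 n m _ (mL2.indicator mpol)]
      have e3 : ∀ x1 x2, (F.prod G).pol.indicator (fun y => ENNReal.ofReal (LQ' (p2 y)))
          (Fin.append x1 x2) = ENNReal.ofReal (LQ' x2) *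
            {z : (Fin n → ℝ) × (Fin m → ℝ) | F.h z.1 + G.h z.2 ≤ 1}.indicator 1 (x1, x2) := by
        intro x1 x2
        by_cases h9 : F.h x1 + G.h x2 ≤ 1
        · rw [indicator_of_mem ((e0 _ _).2 h9), p2_append,
            indicator_of_mem (show (x1, x2) ∈ {z : (Fin n → ℝ) × (Fin m → ℝ) |
              F.h z.1 + G.h z.2 ≤ 1} from h9), Pi.one_apply, mul_one]
        · rw [indicator_of_notMem (fun h => h9 ((e0 _ _).1 h)),
            indicator_of_notMem (show (x1, x2) ∉ {z : (Fin n → ℝ) × (Fin m → ℝ) |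
              F.h z.1 + G.h z.2 ≤ 1} from h9), mul_zero]
      simp only [e3]
      rw [lintegral_lintegral_swap (((mLQ'.comp measurable_snd).mul
        (measurable_one.indicator mset)).aemeasurable)]
      refine lintegral_congr fun x2 => ?_
      have ms : MeasurableSet {z | G.h x2 + F.h z ≤ 1} :=
        measurableSet_le (measurable_const.add (h_meas hF)) measurable_const
      rw [← lintegral_indicator_one ms, ← lintegral_const_mul _ (measurable_one.indicator ms)]
      refine lintegral_congr fun x1 => ?_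
      congr 1
      by_cases h9 : F.h x1 + G.h x2 ≤ 1
      · rw [indicator_of_mem (show (x1, x2) ∈ {z : (Fin n → ℝ) × (Fin m → ℝ) |
              F.h z.1 + G.h z.2 ≤ 1} from h9),
          indicator_of_mem (show x1 ∈ {z | G.h x2 + F.h z ≤ 1} from by
            show G.h x2 + F.h x1 ≤ 1; linarith)]
        rfl
      · rw [indicator_of_notMem (show (x1, x2) ∉ {z : (Fin n → ℝ) × (Fin m → ℝ) |
              F.h z.1 + G.h z.2 ≤ 1} from h9),
          indicator_of_notMem (show x1 ∉ {z | G.h x2 + F.h z ≤ 1} from fun h => h9 (by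
            have h' : G.h x2 + F.h x1 ≤ 1 := h
            linarith))]
    rw [← e1] at k1
    rw [← e2] at k2
    have h10 : ∫⁻ y in (F.prod G).pol, ENNReal.ofReal (LQP LQ LQ' y) ≤
        ∫⁻ y in (F.prod G).pol, (ENNReal.ofReal (LQ (p1 y)) + ENNReal.ofReal (LQ' (p2 y))) :=
      lintegral_mono fun y => ENNReal.ofReal_add_le
    refine h10.trans ?_
    rw [lintegral_add_left mL1]
    refine (add_le_add k1 k2).trans (le_of_eq ?_)
    have h11 : ENNReal.ofReal (qa + qa' - 2 + n * (HH (n + m) - HH (n - 1)) +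
      m * (HH (n + m) - HH (m - 1))) = ENNReal.ofReal (qa - 1 + n * (HH (n + m) - HH (n - 1))) +
        ENNReal.ofReal (qa' - 1 + m * (HH (n + m) - HH (m - 1))) := by
      rw [← ENNReal.ofReal_add (by linarith) (by linarith)]
      congr 1
      ring
    rw [hvol, Nat.add_comm m n, h11, add_mul, mul_comm (m.factorial : ℝ) n.factorial,
      mul_comm (volume G.pol)]

end Pool.Agent.TH602.LP931
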